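import Mathlib

/-!
# A topological group without closed fans that is not a k-space
-/

set_option autoImplicit false
set_option linter.style.haveILetI false

universe u

namespace Pool.Agent.Results.MP_632b8e_gt.NotKSpace

open Set Cardinal

/-- `X` is a k-space. -/
def IsKSpace (X : Type) [TopologicalSpace X] : Prop :=
  ∀ C : Set X, (∀ K : Set X, IsCompact K → IsClosed ((↑) ⁻¹' C : Set K)) → IsClosed C

/-- Compact-finite indexed families. -/
def CompactFinite {X : Type} [TopologicalSpace X] {L : Type u} (F : L → Set X) : Prop :=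
  ∀ K : Set X, IsCompact K → {a | (F a ∩ K).Nonempty}.Finite

/-- There is no compact-finite family of closed sets, indexed by a type of the universe `u`, that
is not locally finite. -/
def NoCldFan (X : Type) [TopologicalSpace X] : Prop :=
  ∀ (L : Type u) (F : L → Set X), (∀ a, IsClosed (F a)) → CompactFinite F → LocallyFinite F

/-- The index set. -/
abbrev I : Type := Set ℝ

theorem one_add_one : (1 : ZMod 2) + 1 = 0 := by decide

theorem neg_one : -(1 : ZMod 2) = 1 := by decide

/-- The functions with values in `{0, 1}` that are almost constant up to countable sets. -/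
def GG : AddSubgroup (I → ZMod 2) where
  carrier := {x | {i | x i ≠ 0}.Countable ∨ {i | x i ≠ 1}.Countable}
  zero_mem' := Or.inl (by simp)
  add_mem' := by
    rintro x y (hx | hx) (hy | hy)
    · left
      refine (hx.union hy).mono fun i hi => ?_
      by_contra h
      rw [mem_union, not_or] at h
      apply hi
      rw [Pi.add_apply, not_not.1 h.1, not_not.1 h.2, add_zero]
    · right
      refine (hx.union hy).mono fun i hi => ?_
      by_contra h
      rw [mem_union, not_or] at h
      apply hi
      rw [Pi.add_apply, not_not.1 h.1, not_not.1 h.2, zero_add]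
    · right
      refine (hx.union hy).mono fun i hi => ?_
      by_contra h
      rw [mem_union, not_or] at h
      apply hi
      rw [Pi.add_apply, not_not.1 h.1, not_not.1 h.2, add_zero]
    · left
      refine (hx.union hy).mono fun i hi => ?_
      by_contra h
      rw [mem_union, not_or] at h
      apply hi
      rw [Pi.add_apply, not_not.1 h.1, not_not.1 h.2]
      exact one_add_one
  neg_mem' := by
    rintro x (hx | hx)
    · left
      refine hx.mono fun i hi => ?_
      by_contra h
      apply hi
      rw [Pi.neg_apply, not_not.1 h, neg_zero]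
    · right
      refine hx.mono fun i hi => ?_
      by_contra h
      apply hi
      rw [Pi.neg_apply, not_not.1 h]
      exact neg_one

theorem mem_closure_pi {A : Set (I → ZMod 2)} {y : I → ZMod 2} :
    y ∈ closure A ↔ ∀ F : Finset I, ∃ a ∈ A, ∀ i ∈ F, a i = y i := by
  constructor
  · intro h F
    have ho : IsOpen {x : I → ZMod 2 | ∀ i ∈ F, x i = y i} := by
      have : {x : I → ZMod 2 | ∀ i ∈ F, x i = y i} = ⋂ i ∈ F, {x | x i = y i} := by
        ext x
        simp
      rw [this]
      refine isOpen_biInter_finset fun i _ => ?_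
      have h1 : IsOpen ({y i} : Set (ZMod 2)) := isOpen_discrete _
      exact h1.preimage (continuous_apply (A := fun _ : I => ZMod 2) i)
    obtain ⟨a, ha1, ha2⟩ := mem_closure_iff.1 h _ ho (fun i _ => rfl)
    exact ⟨a, ha2, ha1⟩
  · intro h
    rw [mem_closure_iff]
    intro U hU hy
    obtain ⟨F, u, hu, hFU⟩ := isOpen_pi_iff.1 hU y hy
    obtain ⟨a, ha, haF⟩ := h F
    refine ⟨a, hFU fun i hi => ?_, ha⟩
    rw [haF i hi]
    exact (hu i hi).2

/-- Sequences lie in compact sets. -/
theorem seq_compact (Q : ℕ → GG) : ∃ K : Set GG, IsCompact K ∧ ∀ n, Q n ∈ K := by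
  have h : ∀ n, ∃ C : Set I, C.Countable ∧
      ((∀ i ∉ C, (Q n : I → ZMod 2) i = 0) ∨ (∀ i ∉ C, (Q n : I → ZMod 2) i = 1)) := by
    intro n
    rcases (Q n).2 with h | h
    · exact ⟨_, h, Or.inl fun i hi => not_not.1 hi⟩
    · exact ⟨_, h, Or.inr fun i hi => not_not.1 hi⟩
  choose C hC hQ using h
  let D : Set I := ⋃ n, C n
  have hD : D.Countable := countable_iUnion hC
  let K : Set GG := {g | (∀ i ∉ D, (g : I → ZMod 2) i = 0) ∨ (∀ i ∉ D, (g : I → ZMod 2) i = 1)}
  refine ⟨K, ?_, fun n => ?_⟩
  · rw [Subtype.isCompact_iff]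
    have h1 : ((↑) '' K : Set (I → ZMod 2)) =
        {x | ∀ i ∉ D, x i = 0} ∪ {x | ∀ i ∉ D, x i = 1} := by
      ext x
      constructor
      · rintro ⟨g, hg, rfl⟩
        exact hg
      · intro hx
        have hxG : x ∈ GG := by
          rcases hx with h | h
          · left
            refine hD.mono fun i hi => ?_
            by_contra hcon
            exact hi (h i hcon)
          · right
            refine hD.mono fun i hi => ?_
            by_contra hcon
            exact hi (h i hcon)
        exact ⟨⟨x, hxG⟩, hx, rfl⟩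
    rw [h1]
    have hcl : ∀ c : ZMod 2, IsClosed {x : I → ZMod 2 | ∀ i ∉ D, x i = c} := by
      intro c
      have : {x : I → ZMod 2 | ∀ i ∉ D, x i = c} = ⋂ i ∈ Dᶜ, {x | x i = c} := by
        ext x
        simp
      rw [this]
      refine isClosed_biInter fun i _ => ?_
      have h1 : IsClosed ({c} : Set (ZMod 2)) := isClosed_discrete _
      exact h1.preimage (continuous_apply (A := fun _ : I => ZMod 2) i)
    exact (hcl 0).isCompact.union (hcl 1).isCompact
  · rcases hQ n with h | h
    · exact Or.inl fun i hi => h i fun hi' => hi (mem_iUnion_of_mem n hi')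
    · exact Or.inr fun i hi => h i fun hi' => hi (mem_iUnion_of_mem n hi')

theorem noFan : NoCldFan.{u} GG := by
  intro L F _ hF
  have hfin : {a | (F a).Nonempty}.Finite := by
    by_contra hinf
    have hinf' : {a | (F a).Nonempty}.Infinite := hinf
    let e := hinf'.natEmbedding
    have hne : ∀ n, (F (e n).1).Nonempty := fun n => (e n).2
    choose x hx using hne
    obtain ⟨K, hK, hxK⟩ := seq_compact x
    have h1 := hF K hK
    have h2 : (range fun n => (e n).1).Infinite :=
      infinite_range_of_injective fun m n h => e.injective (Subtype.ext h)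
    refine h2 (h1.subset ?_)
    rintro _ ⟨n, rfl⟩
    exact ⟨x n, hx n, hxK n⟩
  intro x
  refine ⟨univ, Filter.univ_mem, hfin.subset ?_⟩
  rintro a ⟨y, hy, -⟩
  exact ⟨y, hy⟩

/-- A set closed under a countable-valued function of finite sets that is uncountable together
with its complement. -/
theorem exists_closed_set (s : Finset I → Set I) (hs : ∀ F, (s F).Countable) :
    ∃ S : Set I, ¬ S.Countable ∧ ¬ Sᶜ.Countable ∧ ∀ F : Finset I, (F : Set I) ⊆ S → s F ⊆ S := by
  let nx : Set I → Set I := fun T =>
    T ∪ ⋃ F : Finset T, s (F.map (Function.Embedding.subtype _))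
  let S0 : Set I := range (fun r : ℝ => ({r} : Set ℝ))
  let S : ℕ → Set I := fun n => nx^[n] S0
  have hS : ∀ n, S (n + 1) = nx (S n) := fun n => Function.iterate_succ_apply' nx n _
  have hsub : ∀ n, S n ⊆ S (n + 1) := fun n => by rw [hS]; exact subset_union_left
  have hmono : Monotone S := monotone_nat_of_le_succ hsub
  have hinj : Function.Injective (fun r : ℝ => ({r} : Set ℝ)) := singleton_injective
  have hS0 : #S0 = 𝔠 := by
    rw [mk_range_eq _ hinj, mk_real]
  have hcard : ∀ n, #(S n) ≤ 𝔠 := by
    intro n
    induction n with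
    | zero => exact hS0.le
    | succ n ih =>
      rw [hS]
      refine (mk_union_le _ _).trans ?_
      have h1 : Infinite (S n) := by
        rw [Cardinal.infinite_iff]
        have : #S0 ≤ #(S n) := mk_le_mk_of_subset (hmono (Nat.zero_le n))
        rw [hS0] at this
        exact aleph0_le_continuum.trans this
      have h2 : #(⋃ F : Finset (S n), s (F.map (Function.Embedding.subtype _)) : Set I) ≤ 𝔠 := by
        refine (mk_iUnion_le _).trans ?_
        rw [mk_finset_of_infinite]
        calc #(S n) * ⨆ F : Finset (S n), #(s (F.map (Function.Embedding.subtype _)))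
            ≤ 𝔠 * ℵ₀ := by
              refine mul_le_mul' ih ?_
              exact ciSup_le' fun F => (hs _).le_aleph0
          _ = 𝔠 := continuum_mul_aleph0
      calc #(S n) + #(⋃ F : Finset (S n), s (F.map (Function.Embedding.subtype _)) : Set I)
          ≤ 𝔠 + 𝔠 := add_le_add ih h2
        _ = 𝔠 := continuum_add_self
  refine ⟨⋃ n, S n, ?_, ?_, ?_⟩
  · intro h
    have h1 : S0.Countable := h.mono (subset_iUnion S 0)
    have h2 := h1.le_aleph0
    rw [hS0] at h2
    exact absurd aleph0_lt_continuum (not_lt.2 h2)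
  · intro h
    have h1 : #(⋃ n, S n : Set I) ≤ 𝔠 := by
      refine (mk_iUnion_le _).trans ?_
      calc #ℕ * ⨆ n, #(S n) ≤ ℵ₀ * 𝔠 := by
            refine mul_le_mul' (by simp) ?_
            exact ciSup_le' hcard
        _ = 𝔠 := aleph0_mul_continuum
    have h2 : #I ≤ 𝔠 := by
      rw [← mk_univ, ← union_compl_self (⋃ n, S n)]
      refine (mk_union_le _ _).trans ?_
      calc #(⋃ n, S n : Set I) + #((⋃ n, S n)ᶜ : Set I) ≤ 𝔠 + ℵ₀ := add_le_add h1 h.le_aleph0
        _ = 𝔠 := continuum_add_aleph0
    have h3 : #I = 2 ^ 𝔠 := by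
      rw [mk_set, mk_real]
    rw [h3] at h2
    exact absurd (cantor 𝔠) (not_lt.2 h2)
  · intro F hF
    have h1 : ∃ n, (F : Set I) ⊆ S n := by
      have : ∀ i ∈ F, ∃ n, i ∈ S n := fun i hi => mem_iUnion.1 (hF hi)
      choose! n hn using this
      refine ⟨F.sup n, fun i hi => hmono (Finset.le_sup hi) (hn i hi)⟩
    obtain ⟨n, hn⟩ := h1
    refine Subset.trans ?_ (subset_iUnion S (n + 1))
    rw [hS]
    classical
    refine Subset.trans ?_ subset_union_right
    let F' : Finset (S n) := F.subtype (· ∈ S n)
    have h2 : F'.map (Function.Embedding.subtype _) = F := by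
      rw [Finset.subtype_map_of_mem]
      exact fun i hi => hn hi
    refine Subset.trans ?_ (subset_iUnion _ F')
    rw [h2]

/-- The elements of countable support. -/
def Sg : Set GG := {g | {i | (g : I → ZMod 2) i ≠ 0}.Countable}

theorem one_mem_GG : (1 : I → ZMod 2) ∈ GG := Or.inr (by simp)

theorem not_countable_univ : ¬ (univ : Set I).Countable := by
  intro h
  have h1 := h.le_aleph0
  rw [mk_univ, mk_set, mk_real] at h1
  exact absurd (aleph0_lt_continuum.trans (cantor 𝔠)) (not_lt.2 h1)

theorem inter_closed (K : Set GG) (hK : IsCompact K) : IsClosed (Sg ∩ K) := by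
  rw [← closure_subset_iff_isClosed]
  intro p hp
  have hpK : p ∈ K := by
    have := closure_mono (inter_subset_right : Sg ∩ K ⊆ K) hp
    rwa [hK.isClosed.closure_eq] at this
  refine ⟨?_, hpK⟩
  by_contra hpS
  have hp1 : {i | (p : I → ZMod 2) i ≠ 1}.Countable := by
    rcases p.2 with h | h
    · exact absurd h hpS
    · exact h
  have hp' : (p : I → ZMod 2) ∈ closure ((↑) '' (Sg ∩ K) : Set (I → ZMod 2)) :=
    image_closure_subset_closure_image continuous_subtype_val ⟨p, hp, rfl⟩
  rw [mem_closure_pi] at hp'
  have hp'' : ∀ F : Finset I, ∃ a : GG, a ∈ Sg ∩ K ∧ ∀ i ∈ F, (a : I → ZMod 2) i = p.1 i := by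
    intro F
    obtain ⟨_, ⟨a, ha, rfl⟩, h⟩ := hp' F
    exact ⟨a, ha, h⟩
  choose x hx hxF using hp''
  obtain ⟨S, hS1, hS2, hS3⟩ := exists_closed_set (fun F => {i | (x F : I → ZMod 2) i ≠ 0})
    (fun F => (hx F).1)
  classical
  let y : I → ZMod 2 := fun i => if i ∈ S then p.1 i else 0
  have hyK : y ∈ ((↑) '' K : Set (I → ZMod 2)) := by
    have hcl : IsClosed ((↑) '' K : Set (I → ZMod 2)) := (hK.image continuous_subtype_val).isClosed
    rw [← hcl.closure_eq, mem_closure_pi]
    intro F
    let F' : Finset I := F.filter (· ∈ S)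
    refine ⟨x F', ⟨x F', (hx F').2, rfl⟩, fun i hi => ?_⟩
    by_cases hiS : i ∈ S
    · rw [hxF F' i (Finset.mem_filter.2 ⟨hi, hiS⟩)]
      simp [y, hiS]
    · have h1 := hS3 F' (fun j hj => (Finset.mem_filter.1 hj).2)
      have h2 : (x F' : I → ZMod 2) i = 0 := by
        by_contra h
        exact hiS (h1 h)
      rw [h2]
      simp [y, hiS]
  obtain ⟨g, -, hg⟩ := hyK
  have hyG := g.2
  rw [hg] at hyG
  rcases hyG with h | h
  · apply hS1
    refine (h.union hp1).mono fun i hi => ?_
    by_cases hpi : p.1 i = 1
    · left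
      change y i ≠ 0
      simp [y, hi, hpi]
    · exact Or.inr hpi
  · apply hS2
    refine h.mono fun i hi => ?_
    change y i ≠ 1
    simp [y, show i ∉ S from hi]

theorem notK : ¬ IsKSpace GG := by
  intro h
  have h1 : IsClosed Sg := by
    refine h Sg fun K hK => ?_
    have h2 := (inter_closed K hK).preimage (continuous_subtype_val (p := (· ∈ K)))
    have h3 : ((↑) ⁻¹' Sg : Set K) = (↑) ⁻¹' (Sg ∩ K) := by
      ext g
      simp
    rw [h3]
    exact h2
  let o : GG := ⟨1, one_mem_GG⟩
  have h2 : o ∈ closure Sg := by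
    rw [closure_subtype, mem_closure_pi]
    intro F
    classical
    let a : I → ZMod 2 := fun i => if i ∈ F then 1 else 0
    have ha : {i | a i ≠ 0}.Countable := by
      refine (F.countable_toSet).mono fun i hi => ?_
      by_contra hcon
      exact hi (if_neg hcon)
    refine ⟨a, ⟨⟨a, Or.inl ha⟩, ha, rfl⟩, fun i hi => ?_⟩
    change a i = 1
    simp [a, hi]
  rw [h1.closure_eq] at h2
  apply not_countable_univ
  have h3 : {i | (o : I → ZMod 2) i ≠ 0}.Countable := h2
  refine h3.mono fun i _ => ?_
  change (1 : ZMod 2) ≠ 0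
  decide

/-- There is a Hausdorff topological abelian group that contains no fan of closed sets and is not a
k-space. -/
theorem result :
    ∃ (G : Type) (_ : AddCommGroup G) (_ : TopologicalSpace G) (_ : IsTopologicalAddGroup G),
      T2Space G ∧ NoCldFan.{u} G ∧ ¬ IsKSpace G :=
  ⟨GG, inferInstance, inferInstance, inferInstance, inferInstance, noFan, notK⟩

end Pool.Agent.Results.MP_632b8e_gt.NotKSpace
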